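import Pool.Agent.Q248.FF.Main
import Pool.Agent.Q125.FF.CMP
import Pool.Agent.Q125.FF.MEAS
import Pool.Agent.Q125.FF.PROB

set_option autoImplicit false

open MeasureTheory ProbabilityTheory Filter

namespace Pool.Agent.Results.MP_e8f67b_lc.FirstFitOptimal

/-- `firstFit v t` is the number of the bin (the bins are numbered `0, 1, 2, ...` in the order in
which they are opened) into which `d`-dimensional First Fit puts the item `v t`: the least `b` such
that the sum of the items `v i`, `i < t`, already in bin `b`, and of `v t`, is at most `1` in every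
coordinate. (A bin not yet in use is empty and has room for every item of `[0,1]^d`, so a new bin
is opened exactly when none of the bins in use has room.) -/
noncomputable def firstFit {d : ℕ} (v : ℕ → Fin d → ℝ) : ℕ → ℕ
  | t => sInf {b : ℕ | ∀ j, (∑ i : Fin t, if firstFit v i = b then v i j else 0) + v t j ≤ 1}
  decreasing_by exact i.isLt

/-- the number of bins which First Fit uses for the items `v 0, ..., v (n - 1)` -/
noncomputable def FF {d : ℕ} (v : ℕ → Fin d → ℝ) (n : ℕ) : ℕ :=
  ((Finset.range n).image (firstFit v)).card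

/-- the least number of bins over all packings of the items `v 0, ..., v (n - 1)`: the least `k`
for which there is an assignment `g` of the items to `k` bins with all coordinate sums of every bin
at most `1` -/
noncomputable def OPT {d : ℕ} (v : ℕ → Fin d → ℝ) (n : ℕ) : ℕ :=
  sInf {k : ℕ | ∃ g : Fin n → Fin k, ∀ b j, ∑ i : Fin n, (if g i = b then v i j else 0) ≤ 1}

theorem firstFit_eq {d : ℕ} (v : ℕ → Fin d → ℝ) (t : ℕ) :
    firstFit v t = Pool.Agent.Q248.FF.assign v t := by
  induction t using Nat.strong_induction_on with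
  | _ t ih =>
    rw [firstFit, Pool.Agent.Q248.FF.assign]
    congr 1
    ext b
    have h : ∀ i : Fin t, firstFit v i = Pool.Agent.Q248.FF.assign v i := fun i => ih i i.isLt
    simp only [h]

/-- **Question Q1 of MP_e8f67b_lc, answered in the affirmative.** For every `d ≥ 1` (in particular
for every `d ≥ 2`) and independent items `X 0, X 1, ...` with the uniform distribution on
`[0,1]^d`, the expectation of `FF(L_n) / OPT(L_n)` tends to `1`: `d`-dimensional First Fit is
asymptotically optimal. -/
theorem result (d : ℕ) (hd : 1 ≤ d) (Ω : Type) [MeasurableSpace Ω] (P : Measure Ω)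
    [IsProbabilityMeasure P] (X : ℕ → Ω → Fin d → ℝ) (hX : ∀ i, Measurable (X i))
    (hindep : iIndepFun X P)
    (hlaw : ∀ i, P.map (X i) = volume.restrict (Set.Icc (0 : Fin d → ℝ) 1)) :
    Tendsto (fun n : ℕ =>
      ∫ ω, ((FF (fun i => X i ω) n : ℝ) / (OPT (fun i => X i ω) n : ℝ)) ∂P) atTop (nhds 1) := by
  have h := Pool.Agent.Q248.FF.t_MAIN (Pool.Agent.Q125.FF.t_CMP Pool.Agent.Q248.FF.t_REC)
    Pool.Agent.Q125.FF.t_PROB Pool.Agent.Q125.FF.t_MEAS d hd Ω inferInstance P inferInstance
    X hX hindep hlaw
  have h1 : ∀ (v : ℕ → Fin d → ℝ) n, FF v n = Pool.Agent.Q248.FF.ff v n := by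
    intro v n
    unfold FF Pool.Agent.Q248.FF.ff
    congr 2
    funext t
    exact firstFit_eq v t
  have h2 : ∀ (v : ℕ → Fin d → ℝ) n, OPT v n = Pool.Agent.Q248.FF.opt v n := fun _ _ => rfl
  simp only [h1, h2]
  exact h

end Pool.Agent.Results.MP_e8f67b_lc.FirstFitOptimal
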